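import Pool.Agent.R794.Co.Solv

/-!
A finitely presented solvable co-hopfian group with a finite-index subgroup which is not
co-hopfian.
-/

namespace Pool.Agent.Results.MP_ce3880_al.FiniteIndexSubgroups

open Pool.Agent.R794.Co

theorem result : ∃ (G : Type) (_ : Group G) (H : Subgroup G),
    Group.IsFinitelyPresented G ∧ Group.IsSolvable G ∧ H.FiniteIndex ∧
      CoHopfian G ∧ ¬ CoHopfian H :=
  ⟨A, inferInstance, ρA.ker, A_fp, A_solvable, ker_finiteIndex, A_coHopfian, ker_not_coHopfian⟩

end Pool.Agent.Results.MP_ce3880_al.FiniteIndexSubgroups
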